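import Pool.Agent.H55.KB.FRM

/-!
# Splittings of words, the linear functional and its generator
-/

set_option autoImplicit false

open Finset

namespace Pool.Agent.H55.KB

section defs

variable {ι : Type}

/-- splittings of a word -/
def spl : List ι → List (List ι × List ι)
  | [] => [([], [])]
  | a :: l => (spl l).map (fun p => (a :: p.1, p.2)) ++ (spl l).map (fun p => (p.1, a :: p.2))

variable [Fintype ι]

/-- sum over words of length `m` -/
def WS (m : ℕ) (F : List ι → ℝ) : ℝ := ∑ w : Fin m → ι, F (List.ofFn w)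

/-- the linear functional, level `n + 1` -/
noncomputable def FL (P : Matrix ι ι ℝ) (n : ℕ) (N : List ι → ℝ) : ℝ :=
  ((n:ℝ) + 2) * WS (n + 1) (fun l => N l ^ 2) -
    ((n:ℝ) + 1) * ∑ a, ∑ b, P a b * WS n (fun l => N (a :: l) * N (b :: l))

/-- the generator of a derivative: `kp k u` is the derivative of the mean of `x_k` along `u` -/
noncomputable def gN (kp : ι → List ι → ℝ) (N : List ι → ℝ) (l : List ι) : ℝ :=
  -((spl l).map (fun p => if p.1 = [] then 0 else ∑ k, kp k p.1 * N (k :: p.2))).sum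

/-- the generator of the linear functional at `P = 1` -/
noncomputable def GG (A : Matrix ι ι ℝ) (T : ι → ι → ι → ℝ) (n : ℕ) (N g : List ι → ℝ) : ℝ :=
  2 * WS (n + 1) (fun l => N l * g l) + WS (n + 2) (fun l => N l ^ 2) +
    ((n:ℝ) + 1) * (∑ a, ∑ b, (A * A) a b * WS n (fun l => N (a :: l) * N (b :: l))) -
    2 * ((n:ℝ) + 1) * ∑ k, ∑ a, ∑ b, T k a b * WS n (fun l => N (k :: a :: l) * N (b :: l))

end defs

section lemmas

variable {ι : Type} [Fintype ι]

theorem WS_eq_LS (m : ℕ) (F : List ι → ℝ) : WS m F = LS m F := (LS_ofFn m F).symm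

theorem WS_zero (F : List ι → ℝ) : WS 0 F = F [] := by rw [WS_eq_LS, LS_zero]

theorem WS_succ (m : ℕ) (F : List ι → ℝ) : WS (m + 1) F = ∑ k, WS m (fun l => F (k :: l)) := by
  simp only [WS_eq_LS, LS_succ]

end lemmas

end Pool.Agent.H55.KB
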