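import Pool.Agent.H55.KB.FRM

/-!
# Frames, second part: comparison of the given frame with an orthonormal one
-/

set_option autoImplicit false

open Finset

namespace Pool.Agent.H55.KB

section main

variable {E : Type} [AddCommGroup E] [Module ℝ E] {ι : Type} [Fintype ι]

/-- diagonalisation of the Gram matrix -/
theorem frt_diag (G : E → E → ℝ) (hGs : ∀ u v, G u v = G v u)
    (hGa : ∀ u v w, G (u + v) w = G u w + G v w) (hGm : ∀ (c : ℝ) u w, G (c • u) w = c * G u w)
    (hGp : ∀ u, u ≠ 0 → 0 < G u u) [DecidableEq ι] (e : ι → E) (he : LinearIndependent ℝ e) :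
    ∃ (O : Matrix ι ι ℝ) (d : ι → ℝ), O.transpose * O = 1 ∧ O * O.transpose = 1 ∧
      (∀ a, 0 < d a) ∧ ∀ a b, G (∑ c, O a c • e c) (∑ c, O b c • e c) = if a = b then d a else 0 := by
  classical
  set P : Matrix ι ι ℝ := Matrix.of fun a b => G (e a) (e b) with hP
  have hG0 : ∀ w, G 0 w = 0 := fun w => by
    have := hGm 0 0 w
    simpa using this
  have hGsum : ∀ (c : ι → ℝ) (f : ι → E) (w : E), G (∑ b, c b • f b) w = ∑ b, c b * G (f b) w := by
    intro c f w
    have : ∀ s : Finset ι, G (∑ b ∈ s, c b • f b) w = ∑ b ∈ s, c b * G (f b) w := by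
      intro s
      induction s using Finset.induction_on with
      | empty => simp [hG0]
      | insert a s ha ih => rw [Finset.sum_insert ha, Finset.sum_insert ha, hGa, hGm, ih]
    exact this _
  have hGsum2 : ∀ (c : ι → ℝ) (f : ι → E) (w : E), G w (∑ b, c b • f b) =
      ∑ b, c b * G w (f b) := by
    intro c f w
    rw [hGs, hGsum]
    exact Finset.sum_congr rfl fun b _ => by rw [hGs]
  have hPH : P.IsHermitian := by
    ext a b
    simp [hP, Matrix.conjTranspose, hGs (e b) (e a)]
  have hPD : P.PosDef := by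
    refine Matrix.PosDef.of_dotProduct_mulVec_pos hPH fun x hx => ?_
    have h1 : dotProduct (star x) (P.mulVec x) = G (∑ b, x b • e b) (∑ b, x b • e b) := by
      rw [hGsum]
      simp only [hGsum2, dotProduct, Matrix.mulVec, hP, Matrix.of_apply, Pi.star_apply,
        star_trivial]
      refine Finset.sum_congr rfl fun a _ => ?_
      congr 1
      exact Finset.sum_congr rfl fun b _ => by ring
    rw [h1]
    refine hGp _ fun h0 => hx ?_
    have := Fintype.linearIndependent_iff.1 he x h0
    funext a
    exact this a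
  set d : ι → ℝ := hPH.eigenvalues with hd
  have hd0 : ∀ a, 0 < d a := hPD.eigenvalues_pos
  set V : Matrix ι ι ℝ := (hPH.eigenvectorUnitary : Matrix ι ι ℝ) with hV
  have hV1 : V * V.transpose = 1 := by
    have := (Unitary.mem_iff.1 hPH.eigenvectorUnitary.2).2
    rwa [Matrix.star_eq_conjTranspose, Matrix.conjTranspose_eq_transpose_of_trivial] at this
  have hV2 : V.transpose * V = 1 := by
    have := (Unitary.mem_iff.1 hPH.eigenvectorUnitary.2).1
    rwa [Matrix.star_eq_conjTranspose, Matrix.conjTranspose_eq_transpose_of_trivial] at this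
  have hsp : P = V * Matrix.diagonal d * V.transpose := by
    have := hPH.spectral_theorem
    rw [Unitary.conjStarAlgAut_apply, Matrix.star_eq_conjTranspose,
      Matrix.conjTranspose_eq_transpose_of_trivial] at this
    exact this
  refine ⟨V.transpose, d, by rw [Matrix.transpose_transpose]; exact hV1,
    by rw [Matrix.transpose_transpose]; exact hV2, hd0, fun a b => ?_⟩
  have hOPO : V.transpose * P * V = Matrix.diagonal d := by
    rw [hsp]
    calc V.transpose * (V * Matrix.diagonal d * V.transpose) * V
        = (V.transpose * V) * Matrix.diagonal d * (V.transpose * V) := by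
          simp only [Matrix.mul_assoc]
      _ = Matrix.diagonal d := by rw [hV2]; simp
  have h1 : G (∑ c, V.transpose a c • e c) (∑ c, V.transpose b c • e c) =
      (V.transpose * P * V) a b := by
    rw [hGsum2]
    simp only [hGsum, Matrix.mul_apply, Matrix.transpose_apply, hP, Matrix.of_apply]
    refine Finset.sum_congr rfl fun c _ => ?_
    ring
  rw [h1, hOPO, Matrix.diagonal_apply]

/-- **frm_two**: if the Gram matrix is at most `c`, there is an orthonormal frame in which the sums
of squares are at least `c ^ (-m)` times those of the given frame -/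
theorem frm_two (G : E → E → ℝ) (hGs : ∀ u v, G u v = G v u)
    (hGa : ∀ u v w, G (u + v) w = G u w + G v w) (hGm : ∀ (c : ℝ) u w, G (c • u) w = c * G u w)
    (hGp : ∀ u, u ≠ 0 → 0 < G u u) [DecidableEq ι] (e : ι → E) (he : LinearIndependent ℝ e)
    (c : ℝ)
    (hG : ∀ x : ι → ℝ, G (∑ a, x a • e a) (∑ a, x a • e a) ≤ c * ∑ a, x a ^ 2) :
    ∃ e' : ι → E, (∀ a b, G (e' a) (e' b) = if a = b then 1 else 0) ∧
      (∀ a, e' a ∈ Submodule.span ℝ (Set.range e)) ∧
      ∀ N : List E → ℝ, ML N → ∀ m : ℕ,
        LS m (fun w => N (w.map e) ^ 2) ≤ c ^ m * LS m (fun w => N (w.map e') ^ 2) := by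
  classical
  obtain ⟨O, d, hOO, hOO', hd0, hGg⟩ := frt_diag G hGs hGa hGm hGp e he
  set g : ι → E := fun a => ∑ b, O a b • e b with hg
  have hdc : ∀ a, d a ≤ c := by
    intro a
    have h1 := hG (fun b => O a b)
    rw [hGg a a, if_pos rfl] at h1
    have h2 : ∑ b, O a b ^ 2 = 1 := by
      have := congrFun (congrFun hOO' a) a
      rw [Matrix.mul_apply, Matrix.one_apply_eq] at this
      rw [← this]
      exact Finset.sum_congr rfl fun b _ => by rw [Matrix.transpose_apply, sq]
    rw [h2, mul_one] at h1
    exact h1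
  refine ⟨fun a => (Real.sqrt (d a))⁻¹ • g a, fun a b => ?_, fun a => ?_, fun N hN m => ?_⟩
  · rw [hGm, hGs, hGm, hGg]
    by_cases hab : a = b
    · subst hab
      simp only [if_true]
      have h2 := Real.mul_self_sqrt (hd0 a).le
      have h3 : Real.sqrt (d a) ≠ 0 := (Real.sqrt_pos.2 (hd0 a)).ne'
      field_simp
      nlinarith [h2]
    · rw [if_neg (fun h => hab h.symm), if_neg hab]
      ring
  · refine Submodule.smul_mem _ _ (Submodule.sum_mem _ fun b _ => Submodule.smul_mem _ _ ?_)
    exact Submodule.subset_span ⟨b, rfl⟩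
  · rw [← ls_orth O hOO e m N hN, ← LS_smul]
    refine LS_mono m fun w hw => ?_
    rw [ls_scale g _ w N hN, mul_pow, ← mul_assoc]
    have h1 : 1 ≤ c ^ m * (w.map fun a => (Real.sqrt (d a))⁻¹).prod ^ 2 := by
      have h2 : ∀ l : List ι, 1 ≤ c ^ l.length * (l.map fun a => (Real.sqrt (d a))⁻¹).prod ^ 2 := by
        intro l
        induction l with
        | nil => simp
        | cons a l ih =>
          simp only [List.length_cons, List.map_cons, List.prod_cons, mul_pow, inv_pow]
          rw [Real.sq_sqrt (hd0 a).le, pow_succ]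
          have h3 : 1 ≤ c * (d a)⁻¹ := by
            rw [← div_eq_mul_inv, le_div_iff₀ (hd0 a), one_mul]
            exact hdc a
          calc (1:ℝ) = 1 * 1 := (mul_one 1).symm
            _ ≤ (c ^ l.length * (l.map fun a => (Real.sqrt (d a))⁻¹).prod ^ 2) *
                (c * (d a)⁻¹) := mul_le_mul ih h3 zero_le_one (le_trans zero_le_one ih)
            _ = _ := by ring
      have := h2 w
      rwa [hw] at this
    calc N (w.map g) ^ 2 = 1 * N (w.map g) ^ 2 := (one_mul _).symm
      _ ≤ _ := mul_le_mul_of_nonneg_right h1 (sq_nonneg _)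

end main

end Pool.Agent.H55.KB
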