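import Pool.Agent.H35.KB.Stmts
import Pool.Agent.H55.KB.FRT
import Pool.Agent.H33.KG.BAS

/-!
# Project KB, modules FRM and FIN
-/

set_option autoImplicit false
set_option linter.unusedSectionVars false

open MeasureTheory Set Filter Topology
open scoped ContDiff

namespace Pool.Agent.H35.KB

open Pool.Agent.H84 Pool.Agent.H84.Sym Pool.Agent.H84.Sym.P2x Pool.Agent.H19.KL
open Pool.Agent.H73.KG Pool.Agent.H20.KH Pool.Agent.H52.KB
open Pool.Agent.H55.KB (WS spl FL gN GG ML)

section general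

variable {E : Type} [NormedAddCommGroup E] [InnerProductSpace ℝ E]
    [FiniteDimensional ℝ E] [MeasurableSpace E] [BorelSpace E]

/-- scalar product plus covariance -/
noncomputable def frm_G (U : E → ℝ) (u v : E) : ℝ := inner ℝ u v + cv U (li u) (li v)

theorem frm_G_symm (U : E → ℝ) (u v : E) : frm_G U u v = frm_G U v u := by
  unfold frm_G
  rw [real_inner_comm, BAS_symm]

theorem frm_G_add {U : E → ℝ} {t : ℝ} (hU : PP U t) (u v w : E) :
    frm_G U (u + v) w = frm_G U u w + frm_G U v w := by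
  obtain ⟨⟨C, hC⟩, hp⟩ := hU
  unfold frm_G
  have h1 : li (u + v) = fun x => li u x + li v x := by
    funext x
    exact inner_add_left _ _ _
  rw [h1, BAS_add hC (BAS_li u) (BAS_li v) (BAS_li w), inner_add_left]
  ring

theorem frm_G_smul (U : E → ℝ) (c : ℝ) (u w : E) : frm_G U (c • u) w = c * frm_G U u w := by
  unfold frm_G
  have h1 : li (c • u) = fun x => c * li u x := by
    funext x
    exact real_inner_smul_left _ _ _
  rw [h1, BAS_smul, real_inner_smul_left]
  ring

theorem frm_G_pos {U : E → ℝ} {t : ℝ} (hU : PP U t) (u : E) (hu : u ≠ 0) : 0 < frm_G U u u := by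
  obtain ⟨⟨C, hC⟩, hp⟩ := hU
  unfold frm_G
  have h1 := BAS_nonneg hC hp (BAS_li u)
  have h2 := real_inner_self_pos.2 hu
  linarith

theorem frm_G_zero (U : E → ℝ) (w : E) : frm_G U 0 w = 0 := by
  have := frm_G_smul U 0 0 w
  simpa using this

theorem frm_G_sum {U : E → ℝ} {t : ℝ} (hU : PP U t) {κ : Type} [Fintype κ] (c : κ → ℝ) (f : κ → E)
    (w : E) : frm_G U (∑ a, c a • f a) w = ∑ a, c a * frm_G U (f a) w := by
  classical
  have h : ∀ s : Finset κ, frm_G U (∑ a ∈ s, c a • f a) w = ∑ a ∈ s, c a * frm_G U (f a) w := by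
    intro s
    induction s using Finset.induction_on with
    | empty => simp [frm_G_zero]
    | insert a s ha ih =>
      rw [Finset.sum_insert ha, Finset.sum_insert ha, frm_G_add hU, frm_G_smul, ih]
  exact h _

/-- an orthonormal family for the form is linearly independent -/
theorem frm_indep {U : E → ℝ} {t : ℝ} (hU : PP U t) {κ : Type} [Fintype κ] [DecidableEq κ]
    (e' : κ → E) (h : ∀ a b, frm_G U (e' a) (e' b) = if a = b then 1 else 0) :
    LinearIndependent ℝ e' := by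
  refine Fintype.linearIndependent_iff.2 fun c hc b => ?_
  have h1 := frm_G_sum hU c e' (e' b)
  rw [hc, frm_G_zero] at h1
  simp only [h] at h1
  simpa using h1.symm

/-- the frame as a basis -/
theorem frm_basis {U : E → ℝ} {t : ℝ} (hU : PP U t) (e' : JJ E → E)
    (h : ∀ a b, frm_G U (e' a) (e' b) = if a = b then 1 else 0) :
    ∃ b : Module.Basis (JJ E) ℝ E, (b : JJ E → E) = e' ∧ Fr E t U b := by
  have hli := frm_indep hU e' h
  have hsp := hli.span_eq_top_of_card_eq_finrank' (by simp)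
  refine ⟨Module.Basis.mk hli hsp.ge, Module.Basis.coe_mk _ _, hU, ?_⟩
  rw [Module.Basis.coe_mk]
  ext a c
  rw [Matrix.one_apply]
  exact h a c

theorem frm_FF {ι : Type} [Fintype ι] (P : Matrix ι ι ℝ) (e : ι → E) (N : List E → ℝ) (k : ℕ) :
    H55.KB.FF P e N (k + 1) = FL P k (fun l => N (l.map e)) := by
  unfold H55.KB.FF FL
  simp only [H55.KB.WS_eq_LS, Nat.add_sub_cancel, List.map_cons]
  push_cast
  ring

theorem frm_reindex {ι κ : Type} [Fintype ι] [Fintype κ] (σ : κ ≃ ι) (m : ℕ) (F : List ι → ℝ) :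
    H55.KB.LS m (fun w : List κ => F (w.map σ)) = H55.KB.LS m F := by
  induction m generalizing F with
  | zero => rfl
  | succ m ih =>
    simp only [H55.KB.LS_succ, List.map_cons]
    rw [← σ.sum_comp]
    exact Finset.sum_congr rfl fun k _ => ih (fun l => F (σ k :: l))

theorem frm_hs {ι : Type} [Fintype ι] (e : ι → E) (U ψ : E → ℝ) (m : ℕ) :
    hs e U ψ m = H55.KB.LS m (fun w => ND U ψ (w.map e) 0 0 ^ 2) := H55.KB.WS_eq_LS _ _

end general

section stmts

variable (E : Type) [NormedAddCommGroup E] [InnerProductSpace ℝ E]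
    [FiniteDimensional ℝ E] [MeasurableSpace E] [BorelSpace E]

/-- **FRM** -/
theorem frm_thm (hNPB : NPBStmt E) : FRMStmt E := by
  intro t n lam φ hlam hCB U hU e ψ hψ
  obtain ⟨e', h1, -, h3⟩ := H55.KB.frm_key (frm_G U) (frm_G_symm U) (frm_G_add hU) (frm_G_smul U)
    (frm_G_pos hU) (fun a => e a) e.linearIndependent
  obtain ⟨b, hb, hFr⟩ := frm_basis hU e' h1
  have hML := (hNPB U t hU).1 ψ hψ
  have h4 := h3 _ hML (n + 1 + 1)
  have h5 := h3 _ hML (n + 1)
  rw [frm_FF] at h4 h5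
  have h6 := hCB U b hFr ψ hψ
  rw [frm_hs, frm_hs, hb] at h6
  have h7 := mul_le_mul_of_nonneg_left h5 hlam
  calc FL (PG e U) (n + 1) (np e U ψ) + lam * FL (PG e U) n (np e U ψ)
      ≤ H55.KB.LS (n + 1 + 1) (fun w => ND U ψ (w.map e') 0 0 ^ 2) +
        lam * H55.KB.LS (n + 1) (fun w => ND U ψ (w.map e') 0 0 ^ 2) := add_le_add h4 h7
    _ ≤ φ * cv U ψ ψ := h6

/-- **FIN** -/
theorem fin_thm (hNPB : NPBStmt E) : FINStmt E := by
  intro t φ m hφ hEB U hU hcov ψ hψ ι _ b
  classical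
  have hcard : Fintype.card ι = Module.finrank ℝ E := (Module.finrank_eq_card_basis b.toBasis).symm
  set σ : JJ E ≃ ι := (Fintype.equivFinOfCardEq hcard).symm with hσ
  have hML := (hNPB U t hU).1 ψ hψ
  set e0 : JJ E → E := fun j => b (σ j) with he0
  have hon : Orthonormal ℝ e0 := b.orthonormal.comp _ σ.injective
  have hG : ∀ x : JJ E → ℝ, frm_G U (∑ a, x a • e0 a) (∑ a, x a • e0 a) ≤ 2 * ∑ a, x a ^ 2 := by
    intro x
    unfold frm_G
    have h1 := hcov (∑ a, x a • e0 a)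
    have h2 : ‖∑ a, x a • e0 a‖ ^ 2 = ∑ a, x a ^ 2 := by
      rw [← real_inner_self_eq_norm_sq, hon.inner_sum]
      exact Finset.sum_congr rfl fun a _ => by simp [sq]
    rw [real_inner_self_eq_norm_sq, h2]
    rw [h2] at h1
    linarith
  obtain ⟨e', h1, -, h3⟩ := H55.KB.frm_two (frm_G U) (frm_G_symm U) (frm_G_add hU) (frm_G_smul U)
    (frm_G_pos hU) e0 hon.linearIndependent 2 hG
  obtain ⟨b', hb', hFr⟩ := frm_basis hU e' h1
  have h4 := h3 _ hML m
  have h5 := hEB U b' hFr ψ hψ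
  rw [frm_hs, hb'] at h5
  have h6 : hs b U ψ m = H55.KB.LS m (fun w => ND U ψ (w.map e0) 0 0 ^ 2) := by
    rw [frm_hs, ← frm_reindex σ]
    refine H55.KB.LS_congr m fun w _ => ?_
    rw [List.map_map]
    rfl
  rw [h6]
  calc H55.KB.LS m (fun w => ND U ψ (w.map e0) 0 0 ^ 2)
      ≤ 2 ^ m * H55.KB.LS m (fun w => ND U ψ (w.map e') 0 0 ^ 2) := h4
    _ ≤ 2 ^ m * (φ * cv U ψ ψ) := mul_le_mul_of_nonneg_left h5 (by positivity)
    _ = 2 ^ m * φ * cv U ψ ψ := by ring

end stmts

end Pool.Agent.H35.KB
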