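import Pool.Agent.H55.KB.Defs

/-!
# The lower bound for the generator of the linear functional
-/

set_option autoImplicit false

open Finset

namespace Pool.Agent.H55.KB

section split

variable {ι : Type}

/-- sum over the splittings whose first part has length `p` -/
def low_S (p : ℕ) (F : List ι → List ι → ℝ) (l : List ι) : ℝ :=
  ((spl l).map (fun q => if q.1.length = p then F q.1 q.2 else 0)).sum

theorem low_S_nil_zero (F : List ι → List ι → ℝ) : low_S 0 F [] = F [] [] := by
  simp [low_S, spl]

theorem low_S_nil_succ (p : ℕ) (F : List ι → List ι → ℝ) : low_S (p + 1) F [] = 0 := by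
  simp [low_S, spl]

theorem low_S_cons_zero (F : List ι → List ι → ℝ) (a : ι) (l : List ι) :
    low_S 0 F (a :: l) = low_S 0 (fun u v => F u (a :: v)) l := by
  simp [low_S, spl, List.map_append, List.map_map, Function.comp_def]

theorem low_S_cons_succ (p : ℕ) (F : List ι → List ι → ℝ) (a : ι) (l : List ι) :
    low_S (p + 1) F (a :: l) = low_S p (fun u v => F (a :: u) v) l +
      low_S (p + 1) (fun u v => F u (a :: v)) l := by
  simp [low_S, spl, List.map_append, List.map_map, Function.comp_def]

theorem spl_len (l : List ι) : ∀ q ∈ spl l, q.1.length ≤ l.length := by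
  induction l with
  | nil => simp [spl]
  | cons a l ih =>
    intro q hq
    simp only [spl, List.mem_append, List.mem_map] at hq
    rcases hq with ⟨p, hp, rfl⟩ | ⟨p, hp, rfl⟩
    · have := ih p hp
      simp only [List.length_cons]
      omega
    · have := ih p hp
      simp only [List.length_cons]
      omega

theorem spl_sum_eq (F : List ι → List ι → ℝ) (m : ℕ) (l : List ι) (hl : l.length = m) :
    ((spl l).map (fun q => F q.1 q.2)).sum = ∑ p ∈ Finset.range (m + 1), low_S p F l := by
  have h : ∀ L : List (List ι × List ι), (∀ q ∈ L, q.1.length ≤ m) →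
      (L.map (fun q => F q.1 q.2)).sum =
      ∑ p ∈ Finset.range (m + 1), (L.map (fun q => if q.1.length = p then F q.1 q.2 else 0)).sum := by
    intro L
    induction L with
    | nil => simp
    | cons q L ih =>
      intro hL
      simp only [List.map_cons, List.sum_cons, Finset.sum_add_distrib]
      rw [ih fun q' hq' => hL q' (List.mem_cons_of_mem _ hq')]
      congr 1
      rw [Finset.sum_ite_eq, if_pos]
      have := hL q List.mem_cons_self
      exact Finset.mem_range.2 (by omega)
  exact h _ fun q hq => by rw [← hl]; exact spl_len l q hq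

variable [Fintype ι]

theorem low_S_bound (m p : ℕ) (F : List ι → List ι → ℝ) :
    nm m (low_S p F) ≤ (m.choose p : ℝ) *
      Real.sqrt (LS p (fun u => LS (m - p) (fun v => F u v ^ 2))) := by
  induction m generalizing p F with
  | zero =>
    cases p with
    | zero =>
      rw [nm, LS_zero, low_S_nil_zero]
      simp [LS_zero]
    | succ p =>
      rw [nm, LS_zero, low_S_nil_succ]
      simp
  | succ m ih =>
    cases p with
    | zero =>
      have h1 : nm (m + 1) (low_S 0 F) ^ 2 ≤ LS 0 (fun u => LS (m + 1) (fun v => F u v ^ 2)) := by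
        rw [nm_sq_succ, LS_zero, LS_succ]
        refine Finset.sum_le_sum fun a _ => ?_
        have h2 := ih 0 (fun u v => F u (a :: v))
        simp only [Nat.choose_zero_right, Nat.cast_one, one_mul, Nat.sub_zero, LS_zero] at h2
        have h3 : nm m (fun l => low_S 0 F (a :: l)) = nm m (low_S 0 (fun u v => F u (a :: v))) := by
          congr 1
          funext l
          exact low_S_cons_zero F a l
        rw [h3]
        have h4 := pow_le_pow_left₀ (nm_nonneg _ _) h2 2
        rwa [Real.sq_sqrt (LS_nonneg m fun _ => sq_nonneg _)] at h4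
      have h5 := Real.sqrt_le_sqrt h1
      rw [Real.sqrt_sq (nm_nonneg _ _)] at h5
      simpa using h5
    | succ p =>
      set X : List ι → ℝ := fun l => match l with
        | [] => 0
        | a :: l => low_S p (fun u v => F (a :: u) v) l with hX
      set Y : List ι → ℝ := fun l => match l with
        | [] => 0
        | a :: l => low_S (p + 1) (fun u v => F u (a :: v)) l with hY
      have h0 : nm (m + 1) (low_S (p + 1) F) ≤ nm (m + 1) X + nm (m + 1) Y := by
        rw [show nm (m + 1) (low_S (p + 1) F) = nm (m + 1) (fun l => X l + Y l) from ?_]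
        · exact nm_add_le _ _ _
        · refine nm_congr _ fun l hl => ?_
          cases l with
          | nil => simp at hl
          | cons a l => exact low_S_cons_succ p F a l
      have hm : m + 1 - (p + 1) = m - p := by omega
      rw [hm]
      set D := LS (p + 1) (fun u => LS (m - p) (fun v => F u v ^ 2)) with hD
      have hD0 : 0 ≤ D := LS_nonneg _ fun _ => LS_nonneg _ fun _ => sq_nonneg _
      have h1 : nm (m + 1) X ≤ (m.choose p : ℝ) * Real.sqrt D := by
        refine nm_le_of_sq (by positivity) ?_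
        rw [← nm_sq, nm_sq_succ, mul_pow, Real.sq_sqrt hD0, hD, LS_succ, Finset.mul_sum]
        refine Finset.sum_le_sum fun a _ => ?_
        have h2 := pow_le_pow_left₀ (nm_nonneg _ _) (ih p (fun u v => F (a :: u) v)) 2
        rw [mul_pow, Real.sq_sqrt (LS_nonneg _ fun _ => LS_nonneg _ fun _ => sq_nonneg _)] at h2
        exact h2
      have h2 : nm (m + 1) Y ≤ (m.choose (p + 1) : ℝ) * Real.sqrt D := by
        refine nm_le_of_sq (by positivity) ?_
        rw [← nm_sq, nm_sq_succ, mul_pow, Real.sq_sqrt hD0]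
        by_cases hpm : p + 1 ≤ m
        · have hq : m - p = (m - (p + 1)) + 1 := by omega
          have h3 : D = ∑ a, LS (p + 1) (fun u => LS (m - (p + 1)) (fun v => F u (a :: v) ^ 2)) := by
            rw [hD, ← LS_sum]
            refine LS_congr _ fun u _ => ?_
            rw [hq, LS_succ]
          rw [h3, Finset.mul_sum]
          refine Finset.sum_le_sum fun a _ => ?_
          have h4 := pow_le_pow_left₀ (nm_nonneg _ _) (ih (p + 1) (fun u v => F u (a :: v))) 2
          rw [mul_pow, Real.sq_sqrt (LS_nonneg _ fun _ => LS_nonneg _ fun _ => sq_nonneg _)] at h4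
          exact h4
        · have hc : m.choose (p + 1) = 0 := Nat.choose_eq_zero_of_lt (by omega)
          rw [hc]
          simp only [Nat.cast_zero, ne_eq, OfNat.ofNat_ne_zero, not_false_eq_true, zero_pow,
            zero_mul]
          refine Finset.sum_nonpos fun a _ => ?_
          have h4 := ih (p + 1) (fun u v => F u (a :: v))
          rw [hc, Nat.cast_zero, zero_mul] at h4
          have h5 := nm_nonneg m (low_S (p + 1) (fun u v => F u (a :: v)))
          have h6 : nm m (low_S (p + 1) (fun u v => F u (a :: v))) = 0 := le_antisymm h4 h5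
          show nm m (low_S (p + 1) (fun u v => F u (a :: v))) ^ 2 ≤ 0
          rw [h6]
          norm_num
      calc nm (m + 1) (low_S (p + 1) F) ≤ nm (m + 1) X + nm (m + 1) Y := h0
        _ ≤ (m.choose p : ℝ) * Real.sqrt D + (m.choose (p + 1) : ℝ) * Real.sqrt D :=
            add_le_add h1 h2
        _ = ((m + 1).choose (p + 1) : ℝ) * Real.sqrt D := by
            rw [Nat.choose_succ_succ]
            push_cast
            ring

end split

section low

variable {ι : Type} [Fintype ι]

/-- the generator term of the derivatives -/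
theorem low_gN (kp : ι → List ι → ℝ) (N : List ι → ℝ) (n : ℕ) (φ : ℕ → ℝ)
    (hφ : ∀ p, 1 ≤ p → p ≤ n + 1 → ∀ c : ι → ℝ,
      WS p (fun u => (∑ k, c k * kp k u) ^ 2) ≤ φ p * ∑ k, c k ^ 2) :
    nm (n + 1) (gN kp N) ≤ ∑ p ∈ Finset.Icc 1 (n + 1), ((n + 1).choose p : ℝ) *
      Real.sqrt (φ p * WS (n + 2 - p) (fun l => N l ^ 2)) := by
  set F : List ι → List ι → ℝ := fun u v => ∑ k, kp k u * N (k :: v) with hF
  set F' : List ι → List ι → ℝ := fun u v => if u = [] then 0 else F u v with hF'
  have h1 : nm (n + 1) (gN kp N) =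
      nm (n + 1) (fun l => -∑ p ∈ Finset.range (n + 1 + 1), low_S p F' l) := by
    refine nm_congr _ fun l hl => ?_
    rw [gN, ← spl_sum_eq F' (n + 1) l hl]
  have h2 : nm (n + 1) (fun l => -∑ p ∈ Finset.range (n + 1 + 1), low_S p F' l) =
      nm (n + 1) (fun l => ∑ p ∈ Finset.range (n + 1 + 1), low_S p F' l) := by
    have := nm_smul (n + 1) (-1) (fun l => ∑ p ∈ Finset.range (n + 1 + 1), low_S p F' l)
    simpa using this
  have h3 : ∀ l, ∑ p ∈ Finset.range (n + 1 + 1), low_S p F' l =
      ∑ p ∈ Finset.Icc 1 (n + 1), low_S p F' l := by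
    intro l
    rw [Finset.range_eq_Ico, Finset.sum_eq_sum_Ico_succ_bot (by omega)]
    have h0 : low_S 0 F' l = 0 := by
      unfold low_S
      rw [show (fun q : List ι × List ι => if q.1.length = 0 then F' q.1 q.2 else 0) =
        fun _ => (0:ℝ) from ?_]
      · simp
      · funext q
        by_cases hq : q.1.length = 0
        · rw [if_pos hq, hF']
          simp [List.length_eq_zero_iff.1 hq]
        · rw [if_neg hq]
    rw [h0, zero_add]
    rfl
  rw [h1, h2]
  simp only [h3]
  refine le_trans (nm_sum_le _ _ _) (Finset.sum_le_sum fun p hp => ?_)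
  obtain ⟨hp1, hp2⟩ := Finset.mem_Icc.1 hp
  refine le_trans (low_S_bound (n + 1) p F') ?_
  refine mul_le_mul_of_nonneg_left (Real.sqrt_le_sqrt ?_) (Nat.cast_nonneg _)
  rw [LS_swap]
  have h4 : ∀ v : List ι, LS p (fun u => F' u v ^ 2) ≤ φ p * ∑ k, N (k :: v) ^ 2 := by
    intro v
    refine le_trans (le_of_eq ?_) (hφ p hp1 hp2 (fun k => N (k :: v)))
    rw [WS_eq_LS]
    refine LS_congr p fun u hu => ?_
    have hu' : u ≠ [] := by
      rintro rfl
      simp at hu
      omega
    simp only [hF', if_neg hu', hF]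
    congr 1
    exact Finset.sum_congr rfl fun k _ => mul_comm _ _
  refine le_trans (LS_mono _ fun v _ => h4 v) ?_
  have hq : n + 2 - p = (n + 1 - p) + 1 := by omega
  rw [LS_smul, hq, WS_eq_LS, LS_succ, LS_sum]

/-- **LOW**: the lower bound for the generator -/
theorem low_thm (A : Matrix ι ι ℝ) (T : ι → ι → ι → ℝ) (kp : ι → List ι → ℝ) (N : List ι → ℝ)
    (n : ℕ) (φ : ℕ → ℝ) (κ : ℝ) (hA : A.transpose = A)
    (hT : ∀ y : ι → ℝ, ∑ k, ∑ a, (∑ b, T k a b * y b) ^ 2 ≤ κ * ∑ b, y b ^ 2)
    (hφ : ∀ p, 1 ≤ p → p ≤ n + 1 → ∀ c : ι → ℝ,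
      WS p (fun u => (∑ k, c k * kp k u) ^ 2) ≤ φ p * ∑ k, c k ^ 2) :
    WS (n + 2) (fun l => N l ^ 2) - 2 * ((n:ℝ) + 1) *
        Real.sqrt (κ * WS (n + 1) (fun l => N l ^ 2)) * Real.sqrt (WS (n + 2) (fun l => N l ^ 2)) -
      2 * Real.sqrt (WS (n + 1) (fun l => N l ^ 2)) *
        ∑ p ∈ Finset.Icc 1 (n + 1), ((n + 1).choose p : ℝ) *
          Real.sqrt (φ p * WS (n + 2 - p) (fun l => N l ^ 2)) ≤
      GG A T n N (gN kp N) := by
  have h1 : -(Real.sqrt (WS (n + 1) (fun l => N l ^ 2)) *
      ∑ p ∈ Finset.Icc 1 (n + 1), ((n + 1).choose p : ℝ) *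
        Real.sqrt (φ p * WS (n + 2 - p) (fun l => N l ^ 2))) ≤
      WS (n + 1) (fun l => N l * gN kp N l) := by
    have h2 := abs_LS_le (n + 1) N (gN kp N)
    have h3 := low_gN kp N n φ hφ
    have h4 : nm (n + 1) N = Real.sqrt (WS (n + 1) (fun l => N l ^ 2)) := by
      rw [nm, WS_eq_LS]
    rw [WS_eq_LS (n + 1) (fun l => N l * gN kp N l), ← h4]
    have h5 := neg_abs_le (LS (n + 1) (fun l => N l * gN kp N l))
    have h6 := mul_le_mul_of_nonneg_left h3 (nm_nonneg (n + 1) N)
    linarith
  have h2 : 0 ≤ ∑ a, ∑ b, (A * A) a b * WS n (fun l => N (a :: l) * N (b :: l)) := by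
    have h3 : ∑ a, ∑ b, (A * A) a b * WS n (fun l => N (a :: l) * N (b :: l)) =
        WS n (fun l => ∑ c, (∑ a, A c a * N (a :: l)) ^ 2) := by
      simp only [WS_eq_LS]
      rw [show (fun l : List ι => ∑ c, (∑ a, A c a * N (a :: l)) ^ 2) =
        fun l => ∑ a, ∑ b, (A * A) a b * (N (a :: l) * N (b :: l)) from ?_]
      · simp only [LS_sum, LS_smul]
      · funext l
        have h4 : ∀ c, (∑ a, A c a * N (a :: l)) ^ 2 =
            ∑ a, ∑ b, (A c a * A c b) * (N (a :: l) * N (b :: l)) := by
          intro c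
          rw [sq, Finset.sum_mul_sum]
          exact Finset.sum_congr rfl fun a _ => Finset.sum_congr rfl fun b _ => by ring
        simp only [h4]
        rw [Finset.sum_comm]
        refine Finset.sum_congr rfl fun a _ => ?_
        rw [Finset.sum_comm]
        refine Finset.sum_congr rfl fun b _ => ?_
        rw [← Finset.sum_mul, Matrix.mul_apply]
        congr 1
        refine Finset.sum_congr rfl fun c _ => ?_
        have : A a c = A c a := by
          conv_lhs => rw [← hA]
          rfl
        rw [this]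
    rw [h3, WS_eq_LS]
    exact LS_nonneg _ fun l => Finset.sum_nonneg fun c _ => sq_nonneg _
  have h3 : ∑ k, ∑ a, ∑ b, T k a b * WS n (fun l => N (k :: a :: l) * N (b :: l)) ≤
      Real.sqrt (κ * WS (n + 1) (fun l => N l ^ 2)) *
        Real.sqrt (WS (n + 2) (fun l => N l ^ 2)) := by
    have h4 : ∑ k, ∑ a, ∑ b, T k a b * WS n (fun l => N (k :: a :: l) * N (b :: l)) =
        ∑ q : ι × ι, LS n (fun l => (∑ b, T q.1 q.2 b * N (b :: l)) * N (q.1 :: q.2 :: l)) := by
      rw [Fintype.sum_prod_type]
      refine Finset.sum_congr rfl fun k _ => Finset.sum_congr rfl fun a _ => ?_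
      rw [show (fun l : List ι => (∑ b, T k a b * N (b :: l)) * N (k :: a :: l)) =
        fun l => ∑ b, T k a b * (N (k :: a :: l) * N (b :: l)) from ?_]
      · simp only [LS_sum, LS_smul, WS_eq_LS]
      · funext l
        rw [Finset.sum_mul]
        exact Finset.sum_congr rfl fun b _ => by ring
    rw [h4]
    have h5 : ∀ q : ι × ι, LS n (fun l => (∑ b, T q.1 q.2 b * N (b :: l)) *
        N (q.1 :: q.2 :: l)) ≤ nm n (fun l => ∑ b, T q.1 q.2 b * N (b :: l)) *
        nm n (fun l => N (q.1 :: q.2 :: l)) := fun q =>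
      le_trans (le_abs_self _) (abs_LS_le n _ _)
    refine le_trans (Finset.sum_le_sum fun q _ => h5 q) ?_
    refine le_trans (sum_mul_le_sqrt _ _ _) ?_
    have h6 : ∑ q : ι × ι, nm n (fun l => ∑ b, T q.1 q.2 b * N (b :: l)) ^ 2 ≤
        κ * WS (n + 1) (fun l => N l ^ 2) := by
      simp only [nm_sq]
      rw [← LS_sum, WS_eq_LS, LS_succ, ← LS_sum, ← LS_smul]
      refine LS_mono n fun l _ => ?_
      rw [Fintype.sum_prod_type]
      exact hT (fun b => N (b :: l))
    have h7 : ∑ q : ι × ι, nm n (fun l => N (q.1 :: q.2 :: l)) ^ 2 =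
        WS (n + 2) (fun l => N l ^ 2) := by
      simp only [nm_sq]
      rw [Fintype.sum_prod_type, WS_eq_LS]
      simp only [LS_succ]
    rw [h7]
    exact mul_le_mul_of_nonneg_right (Real.sqrt_le_sqrt h6) (Real.sqrt_nonneg _)
  unfold GG
  have hn : (0:ℝ) ≤ (n:ℝ) + 1 := by positivity
  have h8 := mul_nonneg hn h2
  have h9 := mul_le_mul_of_nonneg_left h3 hn
  nlinarith [h1, h8, h9]

end low

end Pool.Agent.H55.KB
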