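import Mathlib

/-!
# The numbers in one step of the induction on the degree
-/

set_option autoImplicit false

open Finset

namespace Pool.Agent.H55.KB

/-- the bound for the level `p` -/
noncomputable def BK (K : ℝ) (p : ℕ) : ℝ := (100 * K) ^ (p - 1) * ((p.factorial : ℕ) : ℝ) ^ 2

theorem BK_nonneg {K : ℝ} (hK : 1 ≤ K) (p : ℕ) : 0 ≤ BK K p := by
  unfold BK
  positivity

theorem num_term {K : ℝ} (hK : 1 ≤ K) (a b : ℝ) (M p q : ℕ) (hp : 1 ≤ p) (hq : 1 ≤ q)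
    (hM : M + 1 = p + q) (_ha0 : 0 ≤ a) (hb0 : 0 ≤ b)
    (ha : a ≤ BK K p) (hb : b ≤ BK K q) :
    (M.choose p : ℝ) * Real.sqrt (a * b) ≤ Real.sqrt (BK K M) * q := by
  have h1 : Real.sqrt (a * b) ≤ Real.sqrt (BK K p * BK K q) :=
    Real.sqrt_le_sqrt (mul_le_mul ha hb hb0 (BK_nonneg hK p))
  have hc : (0:ℝ) ≤ (100 * K) ^ (M - 1) := by positivity
  have h2 : BK K p * BK K q =
      (100 * K) ^ (M - 1) * ((p.factorial : ℝ) * (q.factorial : ℝ)) ^ 2 := by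
    unfold BK
    rw [show M - 1 = (p - 1) + (q - 1) by omega, pow_add]
    ring
  have h3 : Real.sqrt (BK K p * BK K q) =
      Real.sqrt ((100 * K) ^ (M - 1)) * ((p.factorial : ℝ) * (q.factorial : ℝ)) := by
    rw [h2, Real.sqrt_mul hc, Real.sqrt_sq (by positivity)]
  have h4 : Real.sqrt (BK K M) = Real.sqrt ((100 * K) ^ (M - 1)) * (M.factorial : ℝ) := by
    unfold BK
    rw [Real.sqrt_mul hc, Real.sqrt_sq (by positivity)]
  have h5 : (M.choose p : ℝ) * ((p.factorial : ℝ) * (q.factorial : ℝ)) = (M.factorial : ℝ) * q := by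
    have hpM : p ≤ M := by omega
    have h6 := Nat.choose_mul_factorial_mul_factorial hpM
    have h7 : q.factorial = q * (M - p).factorial := by
      obtain ⟨r, rfl⟩ : ∃ r, q = r + 1 := ⟨q - 1, by omega⟩
      rw [Nat.factorial_succ, show M - p = r by omega]
    have h8 : ((M.choose p * p.factorial * (M - p).factorial : ℕ) : ℝ) = (M.factorial : ℕ) := by
      rw [h6]
    push_cast at h8
    rw [h7, ← h8]
    push_cast
    ring
  calc (M.choose p : ℝ) * Real.sqrt (a * b)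
      ≤ (M.choose p : ℝ) * Real.sqrt (BK K p * BK K q) :=
        mul_le_mul_of_nonneg_left h1 (Nat.cast_nonneg _)
    _ = Real.sqrt ((100 * K) ^ (M - 1)) *
        ((M.choose p : ℝ) * ((p.factorial : ℝ) * (q.factorial : ℝ))) := by rw [h3]; ring
    _ = Real.sqrt (BK K M) * q := by rw [h5, h4]; ring

theorem num_a1 (m K a x s : ℝ) (h : s ^ 2 ≤ K) :
    -(m ^ 2 * K * a ^ 2) ≤ x ^ 2 - 2 * m * (s * a) * x := by
  have h2 : 0 ≤ m ^ 2 * a ^ 2 := by positivity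
  nlinarith [sq_nonneg (x - m * s * a), mul_le_mul_of_nonneg_left h h2]

theorem num_a2 (m y a : ℝ) : 2 * m * y * a ≤ a ^ 2 / 4 + 4 * m ^ 2 * y ^ 2 := by
  nlinarith [sq_nonneg (a / 2 - 2 * m * y)]

theorem num_a3 (a r f : ℝ) (h : r ^ 2 = f) : 2 * a * r ≤ a ^ 2 + f := by
  nlinarith [sq_nonneg (a - r)]

theorem num_a4 (m K a lam : ℝ) (hm : 3 ≤ m) (hK : 1 ≤ K) (hl : lam = 16 * m ^ 2 * K) :
    m ^ 2 * K * a ^ 2 + 2 * m * a ^ 2 + a ^ 2 ≤ lam / 4 * a ^ 2 := by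
  have h1 : 2 * m + 1 ≤ 3 * (m ^ 2 * K) := by nlinarith
  have h2 := mul_le_mul_of_nonneg_right h1 (sq_nonneg a)
  rw [hl]
  nlinarith

theorem num_a5 (a s : ℝ) : a * s / 8 ≤ a ^ 2 / 4 + s ^ 2 / 64 := by
  nlinarith [sq_nonneg (a / 2 - s / 8)]

theorem num_a6 (lam X δ : ℝ) (hl : 1 ≤ lam) (hδ : 0 ≤ δ) (h : lam * X ≤ δ) : X ≤ δ := by
  by_contra hcon
  push Not at hcon
  nlinarith

theorem num_a7 (m K lam : ℝ) (hm : 3 ≤ m) (hK : 1 ≤ K) (hl : lam = 16 * m ^ 2 * K) :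
    1 ≤ lam := by
  have h1 : 1 ≤ m ^ 2 := by nlinarith
  have h2 := mul_le_mul h1 hK zero_le_one (by positivity)
  rw [hl]
  linarith

/-- **NUM**: one step of the induction, `m = n + 2 ≥ 3` -/
theorem num_step (n : ℕ) (hn : 1 ≤ n) (K κ : ℝ) (hK : 1 ≤ K) (hκ0 : 0 ≤ κ) (hκ : κ ≤ K)
    (φ e : ℕ → ℝ) (ε δ : ℝ) (hδ : 0 ≤ δ) (hφ0 : ∀ p, 0 ≤ φ p)
    (hφ : ∀ p, 1 ≤ p → p < n + 2 → φ p ≤ BK K p) (he0 : ∀ j, 0 ≤ e j)
    (he : ∀ j, 1 ≤ j → j < n + 2 → e j ≤ φ j)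
    (hext : φ (n + 2) - ε ≤ e (n + 2) + 16 * ((n:ℝ) + 2) ^ 2 * K * e (n + 1))
    (hmain : (e (n + 3) - 2 * ((n:ℝ) + 2) * Real.sqrt (κ * e (n + 2)) * Real.sqrt (e (n + 3)) -
        2 * Real.sqrt (e (n + 2)) * ∑ p ∈ Finset.Icc 1 (n + 2), ((n + 2).choose p : ℝ) *
          Real.sqrt (φ p * e (n + 3 - p))) +
      16 * ((n:ℝ) + 2) ^ 2 * K * (e (n + 2) -
        2 * ((n:ℝ) + 1) * Real.sqrt (κ * e (n + 1)) * Real.sqrt (e (n + 2)) -
        2 * Real.sqrt (e (n + 1)) * ∑ p ∈ Finset.Icc 1 (n + 1), ((n + 1).choose p : ℝ) *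
          Real.sqrt (φ p * e (n + 2 - p))) + φ (n + 2) * e 1 ≤ δ) :
    φ (n + 2) ≤ BK K (n + 2) / 2 + ε + 4 * δ := by
  set m : ℝ := (n:ℝ) + 2 with hm
  have hm3 : 3 ≤ m := by
    have : (1:ℝ) ≤ n := by exact_mod_cast hn
    rw [hm]; linarith
  set M : ℝ := BK K (n + 2) with hMd
  set M' : ℝ := BK K (n + 1) with hM'd
  have hM0 : 0 ≤ M := BK_nonneg hK _
  have hM'0 : 0 ≤ M' := BK_nonneg hK _
  have hMM : m ^ 2 * (100 * K) * M' = M := by
    rw [hMd, hM'd, BK, BK, hm]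
    rw [show n + 2 - 1 = (n + 1 - 1) + 1 by omega, pow_succ, Nat.factorial_succ (n + 1)]
    push_cast
    ring
  set a : ℝ := Real.sqrt (e (n + 2)) with ha
  have ha0 : 0 ≤ a := Real.sqrt_nonneg _
  have haa : a ^ 2 = e (n + 2) := Real.sq_sqrt (he0 _)
  set c : ℝ := Real.sqrt (e (n + 1)) with hc
  have hc0 : 0 ≤ c := Real.sqrt_nonneg _
  have hcM : e (n + 1) ≤ M' := le_trans (he _ (by omega) (by omega)) (hφ _ (by omega) (by omega))
  have hcM2 : c ≤ Real.sqrt M' := Real.sqrt_le_sqrt hcM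
  set sM : ℝ := Real.sqrt M with hsM
  set sM' : ℝ := Real.sqrt M' with hsM'
  have hsM0 : 0 ≤ sM := Real.sqrt_nonneg _
  have hsM'0 : 0 ≤ sM' := Real.sqrt_nonneg _
  have hsMs : sM ^ 2 = M := Real.sq_sqrt hM0
  have hsM's : sM' ^ 2 = M' := Real.sq_sqrt hM'0
  set x : ℝ := Real.sqrt (e (n + 3)) with hx
  have hx0 : 0 ≤ x := Real.sqrt_nonneg _
  have hxx : x ^ 2 = e (n + 3) := Real.sq_sqrt (he0 _)
  -- first sum
  have hS1 : ∑ p ∈ Finset.Icc 1 (n + 2), ((n + 2).choose p : ℝ) *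
      Real.sqrt (φ p * e (n + 3 - p)) ≤ m * a + sM * m ^ 2 + Real.sqrt (φ (n + 2) * e 1) := by
    have h0 : Finset.Icc 1 (n + 2) = insert 1 (insert (n + 2) (Finset.Icc 2 (n + 1))) := by
      ext p
      simp only [Finset.mem_Icc, Finset.mem_insert]
      omega
    rw [h0, Finset.sum_insert (by simp), Finset.sum_insert (by simp)]
    have h1 : ((n + 2).choose 1 : ℝ) * Real.sqrt (φ 1 * e (n + 3 - 1)) ≤ m * a := by
      rw [Nat.choose_one_right, show n + 3 - 1 = n + 2 by omega, hm, ha]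
      push_cast
      refine mul_le_mul_of_nonneg_left (Real.sqrt_le_sqrt ?_) (by positivity)
      have h2 : φ 1 ≤ 1 := by
        have := hφ 1 le_rfl (by omega)
        simpa [BK] using this
      calc φ 1 * e (n + 2) ≤ 1 * e (n + 2) := mul_le_mul_of_nonneg_right h2 (he0 _)
        _ = e (n + 2) := one_mul _
    have h2 : ((n + 2).choose (n + 2) : ℝ) * Real.sqrt (φ (n + 2) * e (n + 3 - (n + 2))) =
        Real.sqrt (φ (n + 2) * e 1) := by
      rw [Nat.choose_self, show n + 3 - (n + 2) = 1 by omega]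
      simp
    have h3 : ∑ p ∈ Finset.Icc 2 (n + 1), ((n + 2).choose p : ℝ) *
        Real.sqrt (φ p * e (n + 3 - p)) ≤ sM * m ^ 2 := by
      have h4 : ∀ p ∈ Finset.Icc 2 (n + 1), ((n + 2).choose p : ℝ) *
          Real.sqrt (φ p * e (n + 3 - p)) ≤ sM * m := by
        intro p hp
        obtain ⟨hp1, hp2⟩ := Finset.mem_Icc.1 hp
        have h5 := num_term hK (φ p) (e (n + 3 - p)) (n + 2) p (n + 3 - p) (by omega) (by omega)
          (by omega) (hφ0 _) (he0 _) (hφ p (by omega) (by omega))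
          (le_trans (he _ (by omega) (by omega)) (hφ _ (by omega) (by omega)))
        refine le_trans h5 (mul_le_mul_of_nonneg_left ?_ hsM0)
        rw [hm]
        have : (((n + 3 - p : ℕ)) : ℝ) ≤ ((n + 2 : ℕ) : ℝ) := by
          exact_mod_cast (by omega : n + 3 - p ≤ n + 2)
        push_cast at this
        exact this
      refine le_trans (Finset.sum_le_sum h4) ?_
      rw [Finset.sum_const, Nat.card_Icc, nsmul_eq_mul]
      have h5 : (((n + 1 + 1 - 2 : ℕ)) : ℝ) ≤ m := by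
        rw [hm, show n + 1 + 1 - 2 = n by omega]
        linarith
      have h6 : 0 ≤ sM * m := by positivity
      calc _ ≤ m * (sM * m) := mul_le_mul_of_nonneg_right h5 h6
        _ = sM * m ^ 2 := by ring
    linarith
  -- second sum
  have hS2 : ∑ p ∈ Finset.Icc 1 (n + 1), ((n + 1).choose p : ℝ) *
      Real.sqrt (φ p * e (n + 2 - p)) ≤ sM' * m ^ 2 := by
    have h4 : ∀ p ∈ Finset.Icc 1 (n + 1), ((n + 1).choose p : ℝ) *
        Real.sqrt (φ p * e (n + 2 - p)) ≤ sM' * m := by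
      intro p hp
      obtain ⟨hp1, hp2⟩ := Finset.mem_Icc.1 hp
      have h5 := num_term hK (φ p) (e (n + 2 - p)) (n + 1) p (n + 2 - p) (by omega) (by omega)
        (by omega) (hφ0 _) (he0 _) (hφ p (by omega) (by omega))
        (le_trans (he _ (by omega) (by omega)) (hφ _ (by omega) (by omega)))
      refine le_trans h5 (mul_le_mul_of_nonneg_left ?_ hsM'0)
      rw [hm]
      have : (((n + 2 - p : ℕ)) : ℝ) ≤ ((n + 2 : ℕ) : ℝ) := by
        exact_mod_cast (by omega : n + 2 - p ≤ n + 2)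
      push_cast at this
      exact this
    refine le_trans (Finset.sum_le_sum h4) ?_
    rw [Finset.sum_const, Nat.card_Icc, nsmul_eq_mul]
    have h5 : (((n + 1 + 1 - 1 : ℕ)) : ℝ) ≤ m := by
      rw [hm, show n + 1 + 1 - 1 = n + 1 by omega]
      push_cast
      linarith
    have h6 : 0 ≤ sM' * m := by positivity
    calc _ ≤ m * (sM' * m) := mul_le_mul_of_nonneg_right h5 h6
      _ = sM' * m ^ 2 := by ring
  -- the terms
  have hK0 : 0 < K := by linarith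
  have hT1 : -(m ^ 2 * K * a ^ 2) ≤ e (n + 3) -
      2 * m * Real.sqrt (κ * e (n + 2)) * Real.sqrt (e (n + 3)) := by
    rw [Real.sqrt_mul hκ0, ← ha, ← hx, ← hxx]
    exact num_a1 m K a x _ (by rw [Real.sq_sqrt hκ0]; exact hκ)
  have hT2 : 2 * ((n:ℝ) + 1) * Real.sqrt (κ * e (n + 1)) * a ≤
      a ^ 2 / 4 + 4 * m ^ 2 * K * M' := by
    have h1 : Real.sqrt (κ * e (n + 1)) ≤ Real.sqrt (K * M') :=
      Real.sqrt_le_sqrt (mul_le_mul hκ hcM (he0 _) hK0.le)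
    set y := Real.sqrt (K * M') with hy
    have hy0 : 0 ≤ y := Real.sqrt_nonneg _
    have hyy : y ^ 2 = K * M' := Real.sq_sqrt (by positivity)
    have h2 : (n:ℝ) + 1 ≤ m := by rw [hm]; linarith
    have h3 : 2 * ((n:ℝ) + 1) * Real.sqrt (κ * e (n + 1)) * a ≤ 2 * m * y * a := by
      refine mul_le_mul_of_nonneg_right ?_ ha0
      refine mul_le_mul (by linarith) h1 (Real.sqrt_nonneg _) (by positivity)
    have h4 := num_a2 m y a
    rw [hyy] at h4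
    linarith
  have hT3 : 2 * c * (sM' * m ^ 2) ≤ 2 * m ^ 2 * M' := by
    have h1 : c * sM' ≤ M' := by
      rw [← hsM's, sq]
      exact mul_le_mul_of_nonneg_right hcM2 hsM'0
    have h2 : 0 ≤ 2 * m ^ 2 := by positivity
    calc 2 * c * (sM' * m ^ 2) = 2 * m ^ 2 * (c * sM') := by ring
      _ ≤ 2 * m ^ 2 * M' := mul_le_mul_of_nonneg_left h1 h2
  have he1 : 0 ≤ φ (n + 2) * e 1 := mul_nonneg (hφ0 _) (he0 _)
  have hT4 : 2 * a * Real.sqrt (φ (n + 2) * e 1) ≤ a ^ 2 + φ (n + 2) * e 1 :=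
    num_a3 _ _ _ (Real.sq_sqrt he1)
  set lam : ℝ := 16 * m ^ 2 * K with hlam
  have hlam0 : 0 ≤ lam := by positivity
  -- combine
  have hA : 2 * a * ∑ p ∈ Finset.Icc 1 (n + 2), ((n + 2).choose p : ℝ) *
      Real.sqrt (φ p * e (n + 3 - p)) ≤
      2 * m * a ^ 2 + 2 * a * (sM * m ^ 2) + (a ^ 2 + φ (n + 2) * e 1) := by
    have h1 := mul_le_mul_of_nonneg_left hS1 (by positivity : (0:ℝ) ≤ 2 * a)
    have h2 : 2 * a * (m * a + sM * m ^ 2 + Real.sqrt (φ (n + 2) * e 1)) =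
      2 * m * a ^ 2 + 2 * a * (sM * m ^ 2) + 2 * a * Real.sqrt (φ (n + 2) * e 1) := by ring
    linarith
  have hB : 2 * c * ∑ p ∈ Finset.Icc 1 (n + 1), ((n + 1).choose p : ℝ) *
      Real.sqrt (φ p * e (n + 2 - p)) ≤ 2 * m ^ 2 * M' := by
    have h1 := mul_le_mul_of_nonneg_left hS2 (by positivity : (0:ℝ) ≤ 2 * c)
    linarith
  have hC : lam * (e (n + 2) -
        2 * ((n:ℝ) + 1) * Real.sqrt (κ * e (n + 1)) * Real.sqrt (e (n + 2)) -
        2 * Real.sqrt (e (n + 1)) * ∑ p ∈ Finset.Icc 1 (n + 1), ((n + 1).choose p : ℝ) *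
          Real.sqrt (φ p * e (n + 2 - p))) ≥
      lam * (3 / 4 * a ^ 2 - 4 * m ^ 2 * K * M' - 2 * m ^ 2 * M') := by
    refine mul_le_mul_of_nonneg_left ?_ hlam0
    rw [← ha, ← hc, ← haa]
    linarith
  have hD : lam * (3 / 4 * a ^ 2 - 4 * m ^ 2 * K * M' - 2 * m ^ 2 * M') -
      m ^ 2 * K * a ^ 2 - 2 * m * a ^ 2 - 2 * a * (sM * m ^ 2) - a ^ 2 ≤ δ := by
    linarith
  have hE : 2 * m ^ 2 * M' ≤ 2 * m ^ 2 * K * M' := by
    have h1 : 0 ≤ 2 * m ^ 2 * M' := by positivity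
    have h2 := mul_le_mul_of_nonneg_left hK h1
    linarith
  have hF : 4 * m ^ 2 * K * M' = M / 25 := by rw [← hMM]; ring
  have hG : 2 * m ^ 2 * K * M' = M / 50 := by rw [← hMM]; ring
  have hH := num_a4 m K a lam hm3 hK hlam
  have hI : lam * (1 / 2 * a ^ 2 - 3 / 50 * M) - 2 * a * (sM * m ^ 2) ≤ δ := by
    have h1 : lam * (3 / 4 * a ^ 2 - 4 * m ^ 2 * K * M' - 2 * m ^ 2 * M') ≥
        lam * (3 / 4 * a ^ 2 - 3 / 50 * M) := by
      refine mul_le_mul_of_nonneg_left ?_ hlam0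
      linarith
    have h2 : lam * (3 / 4 * a ^ 2 - 3 / 50 * M) - lam / 4 * a ^ 2 =
      lam * (1 / 2 * a ^ 2 - 3 / 50 * M) := by ring
    linarith
  have hJ : 2 * a * (sM * m ^ 2) ≤ lam * (a * sM / 8) := by
    have h1 : 0 ≤ 2 * a * (sM * m ^ 2) := by positivity
    have h2 := mul_le_mul_of_nonneg_left hK h1
    have h3 : lam * (a * sM / 8) = 2 * a * (sM * m ^ 2) * K := by rw [hlam]; ring
    linarith
  have hL : lam * (1 / 2 * a ^ 2 - 3 / 50 * M - a * sM / 8) ≤ δ := by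
    have : lam * (1 / 2 * a ^ 2 - 3 / 50 * M - a * sM / 8) =
      lam * (1 / 2 * a ^ 2 - 3 / 50 * M) - lam * (a * sM / 8) := by ring
    linarith
  have hl1 : 1 ≤ lam := by
    exact num_a7 m K lam hm3 hK hlam
  have hN : 1 / 2 * a ^ 2 - 3 / 50 * M - a * sM / 8 ≤ δ := num_a6 lam _ δ hl1 hδ hL
  have hO : a * sM / 8 ≤ a ^ 2 / 4 + M / 64 := by
    rw [← hsMs]
    exact num_a5 a sM
  have hP : a ^ 2 ≤ 4 * δ + (6 / 25 + 1 / 16) * M := by linarith
  have hQ : lam * e (n + 1) ≤ 4 / 25 * M := by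
    have h1 := mul_le_mul_of_nonneg_left hcM hlam0
    have h2 : lam * M' = 4 / 25 * M := by rw [hlam, ← hMM]; ring
    linarith
  rw [← haa] at hext
  linarith

end Pool.Agent.H55.KB
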