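import Pool.Agent.H55.KB.Words

/-!
# Frames: the linear functional is dominated by the sum of squares in an orthonormal frame
-/

set_option autoImplicit false

open Finset

namespace Pool.Agent.H55.KB

section ml

variable {E : Type} [AddCommGroup E] [Module ℝ E]

/-- symmetric multilinear functions of words of vectors -/
structure ML (N : List E → ℝ) : Prop where
  add : ∀ (u v : E) (l : List E), N ((u + v) :: l) = N (u :: l) + N (v :: l)
  smul : ∀ (c : ℝ) (u : E) (l : List E), N ((c • u) :: l) = c * N (u :: l)
  perm : ∀ l l' : List E, l.Perm l' → N l = N l'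

theorem ML.tail {N : List E → ℝ} (h : ML N) (u : E) : ML (fun l => N (u :: l)) := by
  refine ⟨fun v w l => ?_, fun c v l => ?_, fun l l' hl => h.perm _ _ (hl.cons u)⟩
  · show N (u :: (v + w) :: l) = N (u :: v :: l) + N (u :: w :: l)
    rw [h.perm _ _ (List.Perm.swap (v + w) u l), h.add,
      h.perm _ _ (List.Perm.swap v u l), h.perm _ _ (List.Perm.swap w u l)]
  · show N (u :: (c • v) :: l) = c * N (u :: v :: l)
    rw [h.perm _ _ (List.Perm.swap (c • v) u l), h.smul, h.perm _ _ (List.Perm.swap v u l)]

theorem ML.sum {N : List E → ℝ} (h : ML N) {κ : Type} (s : Finset κ) (c : κ → ℝ) (e : κ → E)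
    (l : List E) : N ((∑ b ∈ s, c b • e b) :: l) = ∑ b ∈ s, c b * N (e b :: l) := by
  classical
  induction s using Finset.induction_on with
  | empty =>
    have := h.smul 0 (0 : E) l
    simpa using this
  | insert a s ha ih =>
    rw [Finset.sum_insert ha, Finset.sum_insert ha, h.add, h.smul, ih]

end ml

section main

variable {E : Type} [AddCommGroup E] [Module ℝ E] {ι : Type} [Fintype ι]

theorem orth_sq [DecidableEq ι] (O : Matrix ι ι ℝ) (hO : O.transpose * O = 1) (x : ι → ℝ) :
    ∑ a, (∑ b, O a b * x b) ^ 2 = ∑ b, x b ^ 2 := by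
  have h1 : ∑ a, (∑ b, O a b * x b) ^ 2 = dotProduct (O.mulVec x) (O.mulVec x) := by
    simp only [dotProduct, Matrix.mulVec]
    exact Finset.sum_congr rfl fun a _ => by ring
  have h2 : ∑ b, x b ^ 2 = dotProduct x x := by
    simp only [dotProduct]
    exact Finset.sum_congr rfl fun a _ => by ring
  rw [h1, h2, Matrix.dotProduct_mulVec, Matrix.vecMul_mulVec, ← Matrix.dotProduct_mulVec, hO,
    Matrix.one_mulVec]

theorem ls_orth [DecidableEq ι] (O : Matrix ι ι ℝ) (hO : O.transpose * O = 1) (e : ι → E) (m : ℕ)
    (N : List E → ℝ) (h : ML N) :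
    LS m (fun w => N (w.map (fun a => ∑ b, O a b • e b)) ^ 2) =
      LS m (fun w => N (w.map e) ^ 2) := by
  induction m generalizing N with
  | zero => simp [LS_zero]
  | succ m ih =>
    simp only [LS_succ, List.map_cons]
    have h1 : ∀ a : ι, LS m (fun w => N ((∑ b, O a b • e b) ::
        w.map (fun a => ∑ b, O a b • e b)) ^ 2) =
        LS m (fun w => N ((∑ b, O a b • e b) :: w.map e) ^ 2) := fun a =>
      ih (fun l => N ((∑ b, O a b • e b) :: l)) (h.tail _)
    simp only [h1]
    rw [← LS_sum, ← LS_sum]
    refine LS_congr m fun w _ => ?_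
    simp only [h.sum]
    exact orth_sq O hO _

omit [Fintype ι] in
/-- multi-homogeneity -/
theorem ls_scale (g : ι → E) (c : ι → ℝ) (w : List ι) (N : List E → ℝ) (h : ML N) :
    N (w.map (fun a => c a • g a)) = (w.map c).prod * N (w.map g) := by
  induction w generalizing N with
  | nil => simp
  | cons a w ih =>
    simp only [List.map_cons, List.prod_cons]
    rw [h.smul, ih (fun l => N (g a :: l)) (h.tail _)]
    ring

theorem ls_weight (d : ι → ℝ) (g : ι → E) (m : ℕ) (N : List E → ℝ) (h : ML N) :
    LS (m + 1) (fun w => (w.map d).sum * N (w.map g) ^ 2) =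
      (m + 1) * ∑ c, d c * LS m (fun w => N (g c :: w.map g) ^ 2) := by
  induction m generalizing N with
  | zero => simp [LS_succ, LS_zero]
  | succ m ih =>
    rw [LS_succ]
    have h1 : ∀ c : ι, LS (m + 1) (fun w => ((c :: w).map d).sum * N ((c :: w).map g) ^ 2) =
        d c * LS (m + 1) (fun w => N (g c :: w.map g) ^ 2) +
        (m + 1) * ∑ c', d c' * LS m (fun w => N (g c :: g c' :: w.map g) ^ 2) := by
      intro c
      rw [← LS_smul, ← ih (fun l => N (g c :: l)) (h.tail _), ← LS_add]
      refine LS_congr _ fun w _ => ?_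
      simp only [List.map_cons, List.sum_cons]
      ring
    simp only [h1, Finset.sum_add_distrib]
    have h2 : ∑ c, ((m:ℝ) + 1) * ∑ c', d c' * LS m (fun w => N (g c :: g c' :: w.map g) ^ 2) =
        (m + 1) * ∑ c', d c' * LS (m + 1) (fun w => N (g c' :: w.map g) ^ 2) := by
      rw [← Finset.mul_sum, Finset.sum_comm]
      congr 1
      refine Finset.sum_congr rfl fun c' _ => ?_
      rw [← Finset.mul_sum, LS_succ]
      congr 1
      refine Finset.sum_congr rfl fun c _ => LS_congr _ fun w _ => ?_
      simp only [List.map_cons]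
      rw [h.perm _ _ (List.Perm.swap (g c') (g c) (w.map g))]
    rw [h2]
    push_cast
    ring

omit [Fintype ι] in
theorem prod_ge (d : ι → ℝ) (hd : ∀ a, 0 < d a) (w : List ι) :
    1 + (w.length : ℝ) - (w.map d).sum ≤ (w.map fun a => (Real.sqrt (d a))⁻¹).prod ^ 2 := by
  have h1 : (w.map fun a => (Real.sqrt (d a))⁻¹).prod ^ 2 =
      Real.exp (-(w.map fun a => Real.log (d a)).sum) := by
    induction w with
    | nil => simp
    | cons a w ih =>
      simp only [List.map_cons, List.prod_cons, List.sum_cons, mul_pow, ih]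
      rw [neg_add, Real.exp_add, Real.exp_neg (Real.log (d a)), Real.exp_log (hd a), inv_pow,
        Real.sq_sqrt (hd a).le]
  have h2 : (w.map fun a => Real.log (d a)).sum ≤ (w.map d).sum - w.length := by
    induction w with
    | nil => simp
    | cons a w ih =>
      simp only [List.map_cons, List.sum_cons, List.length_cons]
      have := Real.log_le_sub_one_of_pos (hd a)
      push_cast
      have ih' := ih (by
        clear h1 ih
        induction w with
        | nil => simp
        | cons a w ih =>
          simp only [List.map_cons, List.prod_cons, List.sum_cons, mul_pow, ih]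
          rw [neg_add, Real.exp_add, Real.exp_neg (Real.log (d a)), Real.exp_log (hd a), inv_pow,
            Real.sq_sqrt (hd a).le])
      linarith
  rw [h1]
  have h3 := Real.add_one_le_exp (-(w.map fun a => Real.log (d a)).sum)
  linarith

/-- the linear functional -/
noncomputable def FF (P : Matrix ι ι ℝ) (e : ι → E) (N : List E → ℝ) (m : ℕ) : ℝ :=
  (m + 1) * LS m (fun w => N (w.map e) ^ 2) -
    m * ∑ a, ∑ b, P a b * LS (m - 1) (fun w => N (e a :: w.map e) * N (e b :: w.map e))

/-- **FRM**: there is an orthonormal frame in which the sums of squares dominate the linear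
functional of the given frame, for all symmetric multilinear functions -/
theorem frm_key (G : E → E → ℝ) (hGs : ∀ u v, G u v = G v u)
    (hGa : ∀ u v w, G (u + v) w = G u w + G v w) (hGm : ∀ (c : ℝ) u w, G (c • u) w = c * G u w)
    (hGp : ∀ u, u ≠ 0 → 0 < G u u) [DecidableEq ι] (e : ι → E) (he : LinearIndependent ℝ e) :
    ∃ e' : ι → E, (∀ a b, G (e' a) (e' b) = if a = b then 1 else 0) ∧
      (∀ a, e' a ∈ Submodule.span ℝ (Set.range e)) ∧
      ∀ N : List E → ℝ, ML N → ∀ m : ℕ,
        FF (Matrix.of fun a b => G (e a) (e b)) e N m ≤ LS m (fun w => N (w.map e') ^ 2) := by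
  classical
  set P : Matrix ι ι ℝ := Matrix.of fun a b => G (e a) (e b) with hP
  have hG0 : ∀ w, G 0 w = 0 := fun w => by
    have := hGm 0 0 w
    simpa using this
  have hGsum : ∀ (c : ι → ℝ) (f : ι → E) (w : E), G (∑ b, c b • f b) w = ∑ b, c b * G (f b) w := by
    intro c f w
    have : ∀ s : Finset ι, G (∑ b ∈ s, c b • f b) w = ∑ b ∈ s, c b * G (f b) w := by
      intro s
      induction s using Finset.induction_on with
      | empty => simp [hG0]
      | insert a s ha ih => rw [Finset.sum_insert ha, Finset.sum_insert ha, hGa, hGm, ih]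
    exact this _
  have hGsum2 : ∀ (c : ι → ℝ) (f : ι → E) (w : E), G w (∑ b, c b • f b) =
      ∑ b, c b * G w (f b) := by
    intro c f w
    rw [hGs, hGsum]
    exact Finset.sum_congr rfl fun b _ => by rw [hGs]
  have hPH : P.IsHermitian := by
    ext a b
    simp [hP, Matrix.conjTranspose, hGs (e b) (e a)]
  have hPD : P.PosDef := by
    refine Matrix.PosDef.of_dotProduct_mulVec_pos hPH fun x hx => ?_
    have h1 : dotProduct (star x) (P.mulVec x) = G (∑ b, x b • e b) (∑ b, x b • e b) := by
      rw [hGsum]
      simp only [hGsum2, dotProduct, Matrix.mulVec, hP, Matrix.of_apply, Pi.star_apply,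
        star_trivial]
      refine Finset.sum_congr rfl fun a _ => ?_
      congr 1
      exact Finset.sum_congr rfl fun b _ => by ring
    rw [h1]
    refine hGp _ fun h0 => hx ?_
    have := Fintype.linearIndependent_iff.1 he x h0
    funext a
    exact this a
  set d : ι → ℝ := hPH.eigenvalues with hd
  have hd0 : ∀ a, 0 < d a := hPD.eigenvalues_pos
  set V : Matrix ι ι ℝ := (hPH.eigenvectorUnitary : Matrix ι ι ℝ) with hV
  have hV1 : V * V.transpose = 1 := by
    have := (Unitary.mem_iff.1 hPH.eigenvectorUnitary.2).2
    rwa [Matrix.star_eq_conjTranspose, Matrix.conjTranspose_eq_transpose_of_trivial] at this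
  have hV2 : V.transpose * V = 1 := by
    have := (Unitary.mem_iff.1 hPH.eigenvectorUnitary.2).1
    rwa [Matrix.star_eq_conjTranspose, Matrix.conjTranspose_eq_transpose_of_trivial] at this
  have hsp : P = V * Matrix.diagonal d * V.transpose := by
    have := hPH.spectral_theorem
    rw [Unitary.conjStarAlgAut_apply, Matrix.star_eq_conjTranspose,
      Matrix.conjTranspose_eq_transpose_of_trivial] at this
    exact this
  set O : Matrix ι ι ℝ := V.transpose with hO
  have hOO : O.transpose * O = 1 := by rw [hO, Matrix.transpose_transpose]; exact hV1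
  have hOPO : O * P * O.transpose = Matrix.diagonal d := by
    rw [hsp, hO, Matrix.transpose_transpose]
    calc V.transpose * (V * Matrix.diagonal d * V.transpose) * V
        = (V.transpose * V) * Matrix.diagonal d * (V.transpose * V) := by
          simp only [Matrix.mul_assoc]
      _ = Matrix.diagonal d := by rw [hV2]; simp
  set g : ι → E := fun a => ∑ b, O a b • e b with hg
  have hGg : ∀ a b, G (g a) (g b) = if a = b then d a else 0 := by
    intro a b
    have h1 : G (g a) (g b) = (O * P * O.transpose) a b := by
      simp only [hg]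
      rw [hGsum2]
      simp only [hGsum, Matrix.mul_apply, Matrix.transpose_apply, hP, Matrix.of_apply]
      refine Finset.sum_congr rfl fun c _ => ?_
      ring
    rw [h1, hOPO, Matrix.diagonal_apply]
  refine ⟨fun a => (Real.sqrt (d a))⁻¹ • g a, fun a b => ?_, fun a => ?_, fun N hN m => ?_⟩
  · rw [hGm, hGs, hGm, hGg]
    by_cases hab : a = b
    · subst hab
      simp only [if_true]
      have h2 := Real.mul_self_sqrt (hd0 a).le
      have h3 : Real.sqrt (d a) ≠ 0 := (Real.sqrt_pos.2 (hd0 a)).ne'
      field_simp
      nlinarith [h2]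
    · rw [if_neg (fun h => hab h.symm), if_neg hab]
      ring
  · refine Submodule.smul_mem _ _ (Submodule.sum_mem _ fun b _ => Submodule.smul_mem _ _ ?_)
    exact Submodule.subset_span ⟨b, rfl⟩
  · -- quadratic form in the new frame
    have hq : ∀ x : ι → ℝ, ∑ a, ∑ b, P a b * (x a * x b) = ∑ c, d c * (∑ b, O c b * x b) ^ 2 := by
      intro x
      have h1 : ∑ a, ∑ b, P a b * (x a * x b) = dotProduct x (P.mulVec x) := by
        simp only [dotProduct, Matrix.mulVec, Finset.mul_sum]
        exact Finset.sum_congr rfl fun a _ => Finset.sum_congr rfl fun b _ => by ring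
      have h2 : ∑ c, d c * (∑ b, O c b * x b) ^ 2 =
          dotProduct (O.mulVec x) ((Matrix.diagonal d).mulVec (O.mulVec x)) := by
        simp only [dotProduct, Matrix.mulVec_diagonal]
        refine Finset.sum_congr rfl fun c _ => ?_
        simp only [Matrix.mulVec, dotProduct]
        ring
      have h3 : P = O.transpose * Matrix.diagonal d * O := by
        rw [hO, Matrix.transpose_transpose]; exact hsp
      rw [h1, h2, h3, ← Matrix.mulVec_mulVec, ← Matrix.mulVec_mulVec, Matrix.dotProduct_mulVec,
        Matrix.vecMul_transpose]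
    have hmain : ∀ k : ℕ, ∑ a, ∑ b, P a b *
        LS k (fun w => N (e a :: w.map e) * N (e b :: w.map e)) =
        ∑ c, d c * LS k (fun w => N (g c :: w.map g) ^ 2) := by
      intro k
      have h1 : ∑ a, ∑ b, P a b * LS k (fun w => N (e a :: w.map e) * N (e b :: w.map e)) =
          LS k (fun w => ∑ a, ∑ b, P a b * (N (e a :: w.map e) * N (e b :: w.map e))) := by
        simp only [LS_sum, LS_smul]
      rw [h1]
      have h2 : (fun w : List ι => ∑ a, ∑ b, P a b * (N (e a :: w.map e) * N (e b :: w.map e))) =
          fun w => ∑ c, d c * (N (g c :: w.map e)) ^ 2 := by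
        funext w
        rw [hq]
        refine Finset.sum_congr rfl fun c _ => ?_
        rw [hg]
        simp only [hN.sum]
      rw [h2, LS_sum]
      refine Finset.sum_congr rfl fun c _ => ?_
      rw [LS_smul]
      congr 1
      exact (ls_orth O hOO e k (fun l => N (g c :: l)) (hN.tail _)).symm
    have hsc : LS m (fun w => N (w.map fun a => (Real.sqrt (d a))⁻¹ • g a) ^ 2) =
        LS m (fun w => (w.map fun a => (Real.sqrt (d a))⁻¹).prod ^ 2 * N (w.map g) ^ 2) := by
      refine LS_congr m fun w _ => ?_
      rw [ls_scale g _ w N hN, mul_pow]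
    have hge : LS m (fun w => (1 + (m:ℝ)) * N (w.map g) ^ 2 -
        (w.map d).sum * N (w.map g) ^ 2) ≤
        LS m (fun w => (w.map fun a => (Real.sqrt (d a))⁻¹).prod ^ 2 * N (w.map g) ^ 2) := by
      refine LS_mono m fun w hw => ?_
      have h1 := prod_ge d hd0 w
      rw [hw] at h1
      have h2 := mul_le_mul_of_nonneg_right h1 (sq_nonneg (N (w.map g)))
      linarith
    rw [LS_sub, LS_smul] at hge
    show FF P e N m ≤ LS m (fun w => N (w.map fun a => (Real.sqrt (d a))⁻¹ • g a) ^ 2)
    rw [hsc]
    refine le_trans (le_of_eq ?_) hge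
    rw [FF, ls_orth O hOO e m N hN]
    cases m with
    | zero =>
      simp [LS_zero]
    | succ k =>
      rw [ls_weight d g k N hN, Nat.add_sub_cancel, hmain k]
      push_cast
      ring

end main

end Pool.Agent.H55.KB
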