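import Mathlib

/-!
# Tensors as functions of words: sums, Cauchy-Schwarz, Minkowski
-/

set_option autoImplicit false

open Finset

namespace Pool.Agent.H55.KB

section defs

variable {ι : Type} [Fintype ι]

/-- sum over all words of length `m` -/
noncomputable def LS : ℕ → (List ι → ℝ) → ℝ
  | 0, f => f []
  | m + 1, f => ∑ i, LS m (fun l => f (i :: l))

/-- the form `∑ ∏ P (l i) (l' i) * f l * g l'` over words of length `m` -/
noncomputable def QF (P : Matrix ι ι ℝ) : ℕ → (List ι → ℝ) → (List ι → ℝ) → ℝ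
  | 0, f, g => f [] * g []
  | m + 1, f, g => ∑ i, ∑ j, P i j * QF P m (fun l => f (i :: l)) (fun l => g (j :: l))

/-- first variation of `QF` in `P`, direction `P'` -/
noncomputable def DQ (P P' : Matrix ι ι ℝ) : ℕ → (List ι → ℝ) → (List ι → ℝ) → ℝ
  | 0, _, _ => 0
  | m + 1, f, g => (∑ i, ∑ j, P' i j * QF P m (fun l => f (i :: l)) (fun l => g (j :: l))) +
      ∑ i, ∑ j, P i j * DQ P P' m (fun l => f (i :: l)) (fun l => g (j :: l))

/-- the part of the generator of `QF` coming from `P`: `P' k` is the derivative of `P` in the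
direction `k`, `G` the generator of `P` -/
noncomputable def GP (P : Matrix ι ι ℝ) (P' : ι → Matrix ι ι ℝ) (G : Matrix ι ι ℝ) :
    ℕ → (List ι → ℝ) → (List ι → ℝ) → ℝ
  | 0, _, _ => 0
  | m + 1, f, g => (∑ i, ∑ j, G i j * QF P m (fun l => f (i :: l)) (fun l => g (j :: l))) +
      (∑ k, ∑ i, ∑ j, P' k i j * DQ P (P' k) m (fun l => f (i :: l)) (fun l => g (j :: l))) +
      ∑ i, ∑ j, P i j * GP P P' G m (fun l => f (i :: l)) (fun l => g (j :: l))

/-- sum over all splittings of a word -/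
noncomputable def SP : (List ι → List ι → ℝ) → List ι → ℝ
  | f, [] => f [] []
  | f, i :: l => SP (fun u v => f (i :: u) v) l + SP (fun u v => f u (i :: v)) l

/-- sum over all splittings of a word, first part of length `p` -/
noncomputable def SK : ℕ → (List ι → List ι → ℝ) → List ι → ℝ
  | 0, f, l => f [] l
  | _ + 1, _, [] => 0
  | p + 1, f, i :: l => SK p (fun u v => f (i :: u) v) l + SK (p + 1) (fun u v => f u (i :: v)) l

end defs

section LSbasic

variable {ι : Type} [Fintype ι]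

theorem LS_zero (f : List ι → ℝ) : LS 0 f = f [] := rfl

theorem LS_succ (m : ℕ) (f : List ι → ℝ) : LS (m + 1) f = ∑ i, LS m (fun l => f (i :: l)) := rfl

theorem LS_add (m : ℕ) (f g : List ι → ℝ) : LS m (fun l => f l + g l) = LS m f + LS m g := by
  induction m generalizing f g with
  | zero => rfl
  | succ m ih => simp only [LS_succ, ih, Finset.sum_add_distrib]

theorem LS_smul (m : ℕ) (c : ℝ) (f : List ι → ℝ) : LS m (fun l => c * f l) = c * LS m f := by
  induction m generalizing f with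
  | zero => rfl
  | succ m ih => simp only [LS_succ, ih, Finset.mul_sum]

theorem LS_zero_fun (m : ℕ) : LS m (fun _ : List ι => (0:ℝ)) = 0 := by
  induction m with
  | zero => rfl
  | succ m ih => simp only [LS_succ, ih, Finset.sum_const_zero]

theorem LS_sum {κ : Type} (s : Finset κ) (m : ℕ) (f : κ → List ι → ℝ) :
    LS m (fun l => ∑ k ∈ s, f k l) = ∑ k ∈ s, LS m (f k) := by
  induction m generalizing f with
  | zero => rfl
  | succ m ih =>
    simp only [LS_succ, ih]
    exact Finset.sum_comm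

theorem LS_neg (m : ℕ) (f : List ι → ℝ) : LS m (fun l => -f l) = -LS m f := by
  have := LS_smul m (-1) f
  simpa using this

theorem LS_sub (m : ℕ) (f g : List ι → ℝ) : LS m (fun l => f l - g l) = LS m f - LS m g := by
  simp only [sub_eq_add_neg, LS_add, LS_neg]

/-- only the words of length `m` matter -/
theorem LS_congr (m : ℕ) {f g : List ι → ℝ} (h : ∀ l, l.length = m → f l = g l) :
    LS m f = LS m g := by
  induction m generalizing f g with
  | zero => exact h [] rfl
  | succ m ih =>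
    simp only [LS_succ]
    exact Finset.sum_congr rfl fun i _ => ih fun l hl => h (i :: l) (by simp [hl])

theorem LS_mono (m : ℕ) {f g : List ι → ℝ} (h : ∀ l, l.length = m → f l ≤ g l) :
    LS m f ≤ LS m g := by
  induction m generalizing f g with
  | zero => exact h [] rfl
  | succ m ih =>
    simp only [LS_succ]
    exact Finset.sum_le_sum fun i _ => ih fun l hl => h (i :: l) (by simp [hl])

theorem LS_nonneg (m : ℕ) {f : List ι → ℝ} (h : ∀ l, 0 ≤ f l) : 0 ≤ LS m f := by
  have := LS_mono m (f := fun _ => 0) (g := f) (fun l _ => h l)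
  rwa [LS_zero_fun] at this

theorem LS_ofFn (m : ℕ) (f : List ι → ℝ) : LS m f = ∑ l : Fin m → ι, f (List.ofFn l) := by
  induction m generalizing f with
  | zero => simp [LS_zero]
  | succ m ih =>
    rw [LS_succ, ← (Fin.consEquiv (fun _ : Fin (m + 1) => ι)).sum_comp, Fintype.sum_prod_type]
    refine Finset.sum_congr rfl fun i _ => ?_
    rw [ih]
    refine Finset.sum_congr rfl fun l _ => ?_
    simp [Fin.consEquiv, List.ofFn_succ]

theorem LS_swap (m p : ℕ) (f : List ι → List ι → ℝ) :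
    LS m (fun u => LS p (fun v => f u v)) = LS p (fun v => LS m (fun u => f u v)) := by
  simp only [LS_ofFn]
  exact Finset.sum_comm

theorem LS_cs (m : ℕ) (f g : List ι → ℝ) :
    LS m (fun l => f l * g l) ^ 2 ≤ LS m (fun l => f l ^ 2) * LS m (fun l => g l ^ 2) := by
  simp only [LS_ofFn]
  exact Finset.sum_mul_sq_le_sq_mul_sq _ _ _

/-- the norm of a tensor -/
noncomputable def nm (m : ℕ) (f : List ι → ℝ) : ℝ := Real.sqrt (LS m (fun l => f l ^ 2))

theorem nm_nonneg (m : ℕ) (f : List ι → ℝ) : 0 ≤ nm m f := Real.sqrt_nonneg _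

theorem nm_sq (m : ℕ) (f : List ι → ℝ) : nm m f ^ 2 = LS m (fun l => f l ^ 2) :=
  Real.sq_sqrt (LS_nonneg m fun _ => sq_nonneg _)

theorem nm_sq_succ (m : ℕ) (f : List ι → ℝ) :
    nm (m + 1) f ^ 2 = ∑ i, nm m (fun l => f (i :: l)) ^ 2 := by
  simp only [nm_sq, LS_succ]

theorem nm_le_of_sq {m : ℕ} {f : List ι → ℝ} {c : ℝ} (hc : 0 ≤ c)
    (h : LS m (fun l => f l ^ 2) ≤ c ^ 2) : nm m f ≤ c := Real.sqrt_le_iff.2 ⟨hc, h⟩

theorem abs_LS_le (m : ℕ) (f g : List ι → ℝ) : |LS m (fun l => f l * g l)| ≤ nm m f * nm m g := by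
  rw [nm, nm, ← Real.sqrt_mul (LS_nonneg m fun l => sq_nonneg _), ← Real.sqrt_sq_eq_abs]
  exact Real.sqrt_le_sqrt (LS_cs m f g)

theorem nm_add_le (m : ℕ) (f g : List ι → ℝ) :
    nm m (fun l => f l + g l) ≤ nm m f + nm m g := by
  refine nm_le_of_sq (add_nonneg (nm_nonneg _ _) (nm_nonneg _ _)) ?_
  have h1 : LS m (fun l => (f l + g l) ^ 2) =
      LS m (fun l => f l ^ 2) + LS m (fun l => g l ^ 2) + 2 * LS m (fun l => f l * g l) := by
    rw [← LS_add, ← LS_smul, ← LS_add]
    congr 1
    funext l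
    ring
  rw [h1, ← nm_sq, ← nm_sq]
  have h2 := le_trans (le_abs_self _) (abs_LS_le m f g)
  nlinarith

theorem nm_smul (m : ℕ) (c : ℝ) (f : List ι → ℝ) : nm m (fun l => c * f l) = |c| * nm m f := by
  rw [nm, nm, ← Real.sqrt_sq_eq_abs, ← Real.sqrt_mul (sq_nonneg c), ← LS_smul]
  congr 2
  funext l
  ring

theorem nm_zero_fun (m : ℕ) : nm m (fun _ : List ι => (0:ℝ)) = 0 := by
  rw [nm]
  have : LS m (fun _ : List ι => (0:ℝ) ^ 2) = 0 := by
    rw [show (fun _ : List ι => (0:ℝ) ^ 2) = fun _ => (0:ℝ) by funext; norm_num]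
    exact LS_zero_fun m
  rw [this, Real.sqrt_zero]

theorem nm_sum_le {κ : Type} (s : Finset κ) (m : ℕ) (f : κ → List ι → ℝ) :
    nm m (fun l => ∑ k ∈ s, f k l) ≤ ∑ k ∈ s, nm m (f k) := by
  classical
  induction s using Finset.induction_on with
  | empty => simp [nm_zero_fun]
  | insert a s ha ih =>
    simp only [Finset.sum_insert ha]
    exact le_trans (nm_add_le m _ _) (by linarith)

theorem nm_congr (m : ℕ) {f g : List ι → ℝ} (h : ∀ l, l.length = m → f l = g l) :
    nm m f = nm m g := by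
  rw [nm, nm, LS_congr m fun l hl => by rw [h l hl]]

end LSbasic

/-- discrete Cauchy-Schwarz for sums of products of square roots -/
theorem sum_mul_le_sqrt {κ : Type} (s : Finset κ) (a b : κ → ℝ) :
    ∑ k ∈ s, a k * b k ≤ Real.sqrt (∑ k ∈ s, a k ^ 2) * Real.sqrt (∑ k ∈ s, b k ^ 2) :=
  Real.sum_mul_le_sqrt_mul_sqrt s a b

end Pool.Agent.H55.KB
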